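import Pool.Agent.Q170.BX.Trans
import Pool.Agent.Q170.ZP.MultiCount

/-!
# MP_130685_nt: Zilber-Pink in `Y(1)^n` for families given by equations with `m + 2` box degenerations

The Shimura variety `Y(1)^n` is identified with `ℂ^n` by the elliptic modular function
`jj = j = E₄³ / Δ`.

**Sets given by equations.** Any `m + 1` of the coordinates of a subvariety `V ⊂ Y(1)^n` of dimension
`m` satisfy an equation. We suppose that for all sets `J` of `m + 1` coordinates such an
equation `G_J (s_j, j ∈ J) = 0` is given, with coefficients in a ring `Λ`, with bounds `d_j` for the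
degrees. Here `s_j` is integral over `K[x_j]`, `R_j (s_j, x_j) = 0` with `R_j` monic in the first
variable and of degree at most `T` in both variables: `R_j = S - X`, `s_j = x_j`, `T = 1` for
subvarieties of `Y(1)^n`; with modular functions `s_j` of higher level one gets the images of
subvarieties of products of modular curves of any levels. `given` is the set of the points `x` of
`Y(1)^n` over which there are numbers `s_j` satisfying all the equations.

**Box degenerations.** Let `v` be a place (a prime ideal) of `Λ` with uniformizer `ϖ` and `e_1, …, e_n`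
positive integers. The equations have the Newton polytopes of boxes, of slopes `e`, if the coefficient of
every monomial `∏ s_j ^ u_j` of `G_J` is divisible by `ϖ ^ (∑ e_j u_j)`, and has exactly this order for
the `2 ^ (m + 1)` corners `u_j ∈ {0, d_j}`. In other words the equation for `ϖ ^ (e_j) s_j` is
integral, and its reduction defines a hypersurface in `(P^1)^J` which contains no point all of whose
coordinates are `0` or `∞`. So the tropicalization of `V` at `v` has only one vertex `(- e_j)` and is
contained in the union of the `m`-dimensional coordinate planes through this vertex, and the closure of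
`V` in `Y(1)^n` meets the cusp `(∞, …, ∞)` at `v`. For example, if `G_J` has constant coefficients and
non-zero corner coefficients (this is so for all `V` after general translations of the
coordinates), the equations `G_J (c_j s_j) = 0` of the scalings of `V` by numbers `c_j` of orders
`e_j` at `v` have this property. Here the equations themselves vary.

The exponents at `m + 2` places are supposed to be *independent* (`IndExp`): positive, and no product of
distinct `e_{l i}` times a number all of whose prime factors are at most `T` is a square (this is so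
if the `e_{l i}` are distinct prime numbers larger than `T`).

**Theorem.** Under these assumptions at `m + 2` places, `V` has no atypical intersection with special
subvarieties of `Y(1)^n` (`NoAtypical`): every irreducible closed subset of `V ∩ Z`, `Z` a special
subvariety, has dimension at most `dim Z + m - n`, and the same bound holds for the transcendence
degrees of the points of `V ∩ Z`. In particular the conjecture is true for `V`.
1. *Local criterion*: for equations over any ring `Λ ⊂ ℂ` with `m + 2` good places.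
2. *One-parameter families* `V_t` over a countable field `K`, `G_J` with coefficients in `K[t]`, with
   box degenerations at the elements `α` of finite sets `D_1, …, D_M` of numbers which are algebraic over
   `K`, such that the exponents at elements of any `m + 2` of the sets are independent. (a) If at least
   `m + 2` of the sets are not empty, the conclusion holds for all `t` which are transcendental over
   `K`. (b) If the union of any `M - m - 1` of the sets has at least three elements (for
   instance if `M = m + 4` and the sets are disjoint), it holds for all but finitely many `t` in any field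
   generated by finitely many numbers which are algebraic over `K`. (c) If the union of any
   `M - m - 1` of the sets has at least two elements (for instance `M = m + 3`), it holds for all but
   finitely many elements of the ring generated by finitely many such numbers.
3. *Families with `r` parameters* with box degenerations along the hypersurfaces `D_l = 0`, outside
   `E_l = 0`, `D_l, E_l ∈ ℤ[t_1, …, t_r]`, `l = 1, …, m + 2`: the conclusion holds for all `t ∈ ℤ^r` such
   that `D_l (t) ≠ 0` has a prime factor `p > Q₀` which does not divide `E_l (t)`, for all `l`. If the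
   `D_l` are not constant and `D_l`, `E_l` have no common factor, this is true for 100 per cent of the `t`:
   the number of exceptions with `|t_j| ≤ H` is at most `C H ^ (r - 1 + ε)`.

The constant coordinates of `Z` can be special points, integral over `Λ` in part 1, and integral over
the ring generated by a finite set `Γ` of numbers algebraic over `K` (in `K`) in parts 2 and 3.

The starting file `MP_130685_nt.CornerCriterion` has the local criterion for scalings, with
`n (n - 1) / 2 + 1` places, its transcendental one-parameter families, and random scalings. Here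
the number of places depends only on the dimension, the equations vary, the slopes are different at
different places without a global scaling, and parts 2 (b), (c) and 3 are new for sets given by
equations. The sets of `MP_d83ecd_ag.DegenerationsFromDimension` and `MultiParameterFamilies` are
images of projective varieties under quotients of forms divided by scalars `c_i`.
-/

set_option autoImplicit false

namespace Pool.Agent.Results.MP_130685_nt.BoxDegenerations

open H294ZP UpperHalfPlane MvPolynomial Pool.Agent.W282.ZP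
open Pool.Agent.Q170.ZP (IndExp)
open Pool.Agent.Y152.RP.Fam (SpecialVariety SpecialVariety.locus NoAtypical)

/-- The value at `(s, x)` of a polynomial `R = ∑ r_u (X) S^u` in two variables `S` and `X`. -/
noncomputable def valueAt {Λ : Type} [CommRing Λ] (g : Λ →+* ℂ) (R : Polynomial (Polynomial Λ))
    (s x : ℂ) : ℂ :=
  Polynomial.eval₂ (Polynomial.eval₂RingHom g x) s R

/-- The points of `Y(1)^n` over which there are values `s_j` with `R_j (s_j, x_j) = 0` which
satisfy the equations `G_J (s_j, j ∈ J) = 0` for all sets `J` of `m + 1` coordinates. The homomorphisms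
`f`, `g` are the specializations of the coefficients. -/
def given {A B : Type} [CommRing A] [CommRing B] (f : A →+* ℂ) (g : B →+* ℂ) {n : ℕ} (m : ℕ)
    (R : Fin n → Polynomial (Polynomial B)) (G : ∀ J : Finset (Fin n), MvPolynomial J A) :
    Set (Fin n → ℂ) :=
  {x | ∃ s : Fin n → ℂ, (∀ i, valueAt g (R i) (s i) (x i) = 0) ∧
    ∀ J : Finset (Fin n), J.card = m + 1 → eval₂ f (fun j : J => s j) (G J) = 0}

/-- The exponents of a corner monomial `∏_{j ∈ I} s_j^(d_j)`. -/
noncomputable def corner {σ : Type} [Fintype σ] [DecidableEq σ] (d : σ → ℕ) (I : Finset σ) :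
    σ →₀ ℕ :=
  Finsupp.equivFunOnFinite.symm fun j => if j ∈ I then d j else 0

/-- The numbers `d J` bound the degrees of the equations `G J` for the sets `J` of `m + 1`
coordinates. -/
def DegreeBounds {A : Type} [CommRing A] {n : ℕ} (m : ℕ)
    (G : ∀ J : Finset (Fin n), MvPolynomial J A) (d : ∀ J : Finset (Fin n), J → ℕ) : Prop :=
  ∀ J : Finset (Fin n), J.card = m + 1 → ∀ u ∈ (G J).support, ∀ j, u j ≤ d J j

/-- The polynomials `R i` are monic and of degree at most `T` in both variables. -/
def Admissible {B : Type} [CommRing B] {n : ℕ} (T : ℕ) (R : Fin n → Polynomial (Polynomial B)) :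
    Prop :=
  (∀ i, (R i).Monic) ∧ ∀ i u w, ((R i).coeff u).coeff w ≠ 0 → u ≤ T ∧ w ≤ T

/-- A good place: a homomorphism `red` to a field under which the non-zero coefficients of the `R i` do
not vanish, and an element `ϖ` with `red ϖ = 0`, such that the coefficients of the monomials
`∏ s_j ^ u_j` of the equations are divisible by `ϖ ^ (∑ e_j u_j)` at the place, and the corner
coefficients have exactly this order. -/
structure GoodPlace {Λ : Type} [CommRing Λ] {n : ℕ} (m : ℕ)
    (R : Fin n → Polynomial (Polynomial Λ)) (G : ∀ J : Finset (Fin n), MvPolynomial J Λ)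
    (d : ∀ J : Finset (Fin n), J → ℕ) (e : Fin n → ℕ) where
  F : Type
  [field : Field F]
  red : Λ →+* F
  coeff_ne : ∀ i u w, ((R i).coeff u).coeff w ≠ 0 → red (((R i).coeff u).coeff w) ≠ 0
  ϖ : Λ
  ϖ_ne : ϖ ≠ 0
  red_ϖ : red ϖ = 0
  box : ∀ J : Finset (Fin n), J.card = m + 1 → ∀ u ∈ (G J).support, ∃ a b : Λ, red a ≠ 0 ∧
    a * (G J).coeff u = b * ϖ ^ (∑ j : J, e j * u j)
  corners : ∀ J : Finset (Fin n), J.card = m + 1 → ∀ I : Finset J, ∃ a b : Λ, red a ≠ 0 ∧
    red b ≠ 0 ∧ a * (G J).coeff (corner (d J) I) = b * ϖ ^ (∑ j : J, e j * corner (d J) I j)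

/-- The order of the zero at `α` of a polynomial in the parameter. -/
noncomputable def order {K : Subfield ℂ} (c : Polynomial K) (α : ℂ) : ℕ :=
  (c.map (algebraMap K ℂ)).rootMultiplicity α

/-- The family has a box degeneration with the slopes `e` at `t = α`: the order at `α` of the
coefficient of the monomial `∏ s_j ^ u_j` is at least `∑ e_j u_j`, with equality for the corner
coefficients. -/
def BoxAt {K : Subfield ℂ} {n : ℕ} (m : ℕ) (G : ∀ J : Finset (Fin n), MvPolynomial J (Polynomial K))
    (d : ∀ J : Finset (Fin n), J → ℕ) (e : Fin n → ℕ) (α : ℂ) : Prop :=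
  ∀ J : Finset (Fin n), J.card = m + 1 →
    (∀ u ∈ (G J).support, ∑ j : J, e j * u j ≤ order ((G J).coeff u) α) ∧
    ∀ I : Finset J, (G J).coeff (corner (d J) I) ≠ 0 ∧
      order ((G J).coeff (corner (d J) I)) α = ∑ j : J, e j * corner (d J) I j

/-- The family with several parameters has a box degeneration with the slopes `e` along `D = 0`, outside
`E = 0`: the coefficient of the monomial `∏ s_j ^ u_j` is divisible by `D ^ (∑ e_j u_j)`, and for the
corner coefficients the quotient has no zero `t` with `D (t) = 0` and `E (t) ≠ 0`. -/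
def BoxAlong {K : Subfield ℂ} {r n : ℕ} (m : ℕ)
    (G : ∀ J : Finset (Fin n), MvPolynomial J (MvPolynomial (Fin r) K))
    (d : ∀ J : Finset (Fin n), J → ℕ) (e : Fin n → ℕ) (D E : MvPolynomial (Fin r) ℤ) : Prop :=
  ∀ J : Finset (Fin n), J.card = m + 1 →
    (∀ u : J →₀ ℕ,
      MvPolynomial.map (Int.castRingHom K) D ^ (∑ j : J, e j * u j) ∣ (G J).coeff u) ∧
    ∀ I : Finset J, ∃ b : MvPolynomial (Fin r) K, (G J).coeff (corner (d J) I) =
      MvPolynomial.map (Int.castRingHom K) D ^ (∑ j : J, e j * corner (d J) I j) * b ∧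
      ∀ t : Fin r → ℂ, aeval t D = 0 → aeval t E ≠ 0 → aeval t b ≠ 0

/-- The value at `t` of a polynomial in one parameter. -/
noncomputable def evalOne (K : Subfield ℂ) (t : ℂ) : Polynomial K →+* ℂ :=
  (Polynomial.aeval t : Polynomial K →ₐ[K] ℂ).toRingHom

/-- The value at `t` of a polynomial in several parameters. -/
noncomputable def evalMany (K : Subfield ℂ) {r : ℕ} (t : Fin r → ℂ) :
    MvPolynomial (Fin r) K →+* ℂ :=
  (aeval t : MvPolynomial (Fin r) K →ₐ[K] ℂ).toRingHom

/-- The ring of the allowed constants -/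
noncomputable abbrev consts (Γ : Finset ℂ) : Algebra.adjoin ℤ (Γ : Set ℂ) →+* ℂ :=
  algebraMap (Algebra.adjoin ℤ (Γ : Set ℂ)) ℂ

theorem valueAt_eq {K : Subfield ℂ} (R : Polynomial (Polynomial K)) (s x : ℂ) :
    valueAt K.subtype R s x = Pool.Agent.Y152.RP.Fam.valueAt R s x := by
  rw [valueAt, Pool.Agent.Y152.RP.Fam.valueAt]
  congr 1

theorem given_eq {A : Type} [CommRing A] (f : A →+* ℂ) {K : Subfield ℂ} {n : ℕ} (m : ℕ)
    (R : Fin n → Polynomial (Polynomial K)) (G : ∀ J : Finset (Fin n), MvPolynomial J A) :
    given f K.subtype m R G = Pool.Agent.Q170.BX.given f m R G := by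
  rw [given, Pool.Agent.Q170.BX.given]
  simp only [valueAt_eq]

/-- **Zilber-Pink in `Y(1)^n` for families given by equations with `m + 2` box degenerations**: the
local criterion, one-parameter families (transcendental parameters, finitely generated fields and
rings), and families with several parameters. -/
theorem result :
    (∀ (Λ : Type) [CommRing Λ] (f : Λ →+* ℂ), Function.Injective f →
      ∀ (K : Subfield ℂ) [Countable K], (∀ a, f a ∈ K) → ∀ (n m T : ℕ)
      (R : Fin n → Polynomial (Polynomial Λ)), Admissible T R →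
      ∀ (G : ∀ J : Finset (Fin n), MvPolynomial J Λ) (d : ∀ J : Finset (Fin n), J → ℕ),
      DegreeBounds m G d → ∀ e : Fin (m + 2) → Fin n → ℕ, IndExp T e →
      (∀ l, Nonempty (GoodPlace m R G d (e l))) → NoAtypical f K m (given f f m R G)) ∧
    (∀ (K : Subfield ℂ) [Countable K] (n m T : ℕ) (R : Fin n → Polynomial (Polynomial K)),
      Admissible T R → ∀ (G : ∀ J : Finset (Fin n), MvPolynomial J (Polynomial K))
      (d : ∀ J : Finset (Fin n), J → ℕ), DegreeBounds m G d → ∀ (M : ℕ) (D : Fin M → Finset ℂ),
      (∀ l, ∀ α ∈ D l, IsAlgebraic K α) → ∀ e : ℂ → Fin n → ℕ,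
      (∀ l, ∀ α ∈ D l, BoxAt m G d (e α) α) →
      (∀ (f : Fin (m + 2) → Fin M) (α : Fin (m + 2) → ℂ), Function.Injective f →
        (∀ l, α l ∈ D (f l)) → IndExp T fun l i => e (α l) i) →
      ∀ Γ : Finset ℂ, (∀ γ ∈ Γ, IsAlgebraic K γ) →
      ((∀ I : Finset (Fin M), M ≤ I.card + (m + 1) → 1 ≤ (I.biUnion D).card) →
        ∀ t : ℂ, Transcendental K t → ∀ (K' : Subfield ℂ) [Countable K'], K ≤ K' → t ∈ K' →
        NoAtypical (consts Γ) K' m (given (evalOne K t) K.subtype m R G)) ∧
      ∀ F : Finset ℂ, (∀ z ∈ F, IsAlgebraic K z) →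
      ((∀ I : Finset (Fin M), M ≤ I.card + (m + 1) → 3 ≤ (I.biUnion D).card) →
        {t : ℂ | t ∈ Subfield.closure (F : Set ℂ) ∧
          ¬ NoAtypical (consts Γ) K m (given (evalOne K t) K.subtype m R G)}.Finite) ∧
      ((∀ I : Finset (Fin M), M ≤ I.card + (m + 1) → 2 ≤ (I.biUnion D).card) →
        {t : ℂ | t ∈ Subring.closure (F : Set ℂ) ∧
          ¬ NoAtypical (consts Γ) K m (given (evalOne K t) K.subtype m R G)}.Finite)) ∧
    (∀ (K : Subfield ℂ) [Countable K] (r n m T : ℕ) (R : Fin n → Polynomial (Polynomial K)),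
      Admissible T R → ∀ (G : ∀ J : Finset (Fin n), MvPolynomial J (MvPolynomial (Fin r) K))
      (d : ∀ J : Finset (Fin n), J → ℕ), DegreeBounds m G d →
      ∀ (D E : Fin (m + 2) → MvPolynomial (Fin r) ℤ) (e : Fin (m + 2) → Fin n → ℕ), IndExp T e →
      (∀ l, BoxAlong m G d (e l) (D l) (E l)) → ∀ Γ : Finset ℂ, (∀ γ ∈ Γ, γ ∈ K) →
      (∃ Q₀ : ℕ, ∀ t : Fin r → ℤ, (∀ l, eval t (D l) ≠ 0 ∧ ∃ p : ℕ, p.Prime ∧ Q₀ < p ∧
        (p : ℤ) ∣ eval t (D l) ∧ ¬ (p : ℤ) ∣ eval t (E l)) →
        NoAtypical (consts Γ) K m (given (evalMany K fun j => (t j : ℂ)) K.subtype m R G)) ∧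
      ((∀ l, 0 < (D l).totalDegree ∧ IsRelPrime (D l) (E l)) → ∀ ε : ℝ, 0 < ε →
        ∃ C : ℝ, 0 < C ∧ ∀ H : ℕ, 1 ≤ H →
          (({t : Fin r → ℤ | (∀ j, |t j| ≤ H) ∧
            ¬ NoAtypical (consts Γ) K m
              (given (evalMany K fun j => (t j : ℂ)) K.subtype m R G)}.ncard : ℕ) : ℝ) ≤
            C * (H : ℝ) ^ ((r : ℝ) - 1 + ε))) := by
  classical
  refine ⟨?_, ?_, ?_⟩
  · intro Λ _ f hf K _ hK n m T R hR G d hd e he P
    have hdom : IsDomain Λ := hf.isDomain f
    let _ : Algebra Λ ℂ := f.toAlgebra
    let fK : Λ →+* K := f.codRestrict K hK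
    let _ : Algebra Λ K := fK.toAlgebra
    have hst : IsScalarTower Λ K ℂ := IsScalarTower.of_algebraMap_eq fun _ => rfl
    have hfK : Function.Injective (algebraMap Λ K) := fun a b h => hf (congrArg Subtype.val h)
    have P' := fun l => (P l).some
    let inst : ∀ l, Field (P' l).F := fun l => (P' l).field
    refine Pool.Agent.Q170.BX.noAtypical_pt f K _ ?_
    rintro r Z x ⟨⟨s, hs, hG⟩, hxZ⟩ S hS
    refine Pool.Agent.Q170.BX.criterionB (m := m) hf le_rfl R hR.1 hR.2
      (fun l => RingHom.ker (P' l).red) (fun l => RingHom.ker_isPrime (P' l).red) G d hd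
      (fun l i u w h0 => (P' l).coeff_ne i u w h0) (fun l => (P' l).ϖ) (fun l => (P' l).red_ϖ)
      (fun l => (P' l).ϖ_ne) e he (fun l J hJ u hu => (P' l).box J hJ u hu)
      (fun l J hJ I => (P' l).corners J hJ I) Z.cls (fun i => (Z.mat i).det.toNat) x s
      (fun i => by
        have := Z.det_pos i
        omega) ?_
      (fun i j l hi hj => by
        have h5 := Pool.Agent.Y152.RP.Fam.rel_of_locus Z hxZ i j l hi hj
        rw [Int.toNat_mul (Z.det_pos i).le (Z.det_pos j).le] at h5
        exact h5) hs hG S (hS.restrictScalars hfK)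
    intro i hi
    obtain ⟨z, hz⟩ := hxZ
    rw [(hz i).1 hi]
    rcases Z.allowed i with ⟨τ, hτ, hc⟩ | h
    · rw [hc]
      exact (singular_modulus_integral τ hτ).tower_top
    · exact h
  · intro K _ n m T R hR G d hd M D hD e hbox hind Γ hΓ
    simp only [given_eq]
    refine ⟨fun hM t ht K' _ hKK' htK' => ?_, fun F hF => ?_⟩
    · obtain ⟨f, α, hf, hα⟩ := Pool.Agent.Q170.BX.exists_choice D hM
      exact Pool.Agent.Q170.BX.transB K n m T R hR.1 hR.2 G d hd α (fun l => hD _ _ (hα l))
        (fun l i => e (α l) i) (hind f α hf hα) (fun l => hbox _ _ (hα l)) Γ hΓ t ht K' hKK' htK'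
    · exact Pool.Agent.Q170.BX.fgB K n m M T R hR.1 hR.2 G d hd D hD e hind hbox Γ hΓ F hF
  · intro K _ r n m T R hR G d hd D E e hind hbox Γ hΓ
    simp only [given_eq]
    obtain ⟨Q, hQ⟩ := Pool.Agent.Q170.BX.multiB K r n m T R hR.1 hR.2 G d hd D E e hind
      (fun l J hJ u => (hbox l J hJ).1 u) (fun l J hJ I => (hbox l J hJ).2 I) Γ hΓ
    refine ⟨⟨Q, hQ⟩, fun hDE ε hε => ?_⟩
    choose C hC hcount using fun l =>
      Pool.Agent.Q170.ZP.Count.card_bad (D l) (E l) (hDE l).1 (hDE l).2 Q ε hε
    have hr : 1 ≤ r := by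
      by_contra hr
      have hr0 : r = 0 := by omega
      subst hr0
      have h1 := (hDE 0).1
      obtain ⟨a, ha⟩ := MvPolynomial.C_surjective (Fin 0) (D 0)
      rw [← ha, totalDegree_C] at h1
      exact lt_irrefl _ h1
    refine ⟨∑ l, (C l + (D l).totalDegree * 3 ^ (r - 1)),
      Finset.sum_pos (fun l _ => by have := hC l; positivity) ⟨0, Finset.mem_univ _⟩,
      fun H hH => ?_⟩
    have h1 : {t : Fin r → ℤ | (∀ j, |t j| ≤ H) ∧
        ¬ NoAtypical (consts Γ) K m
          (Pool.Agent.Q170.BX.given (evalMany K fun j => (t j : ℂ)) m R G)} ⊆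
        ((Finset.univ.biUnion fun l => ((Pool.Agent.Q170.ZP.Count.box r H).filter fun t =>
          ¬ ∃ p : ℕ, p.Prime ∧ Q < p ∧ (p : ℤ) ∣ eval t (D l) ∧ ¬ (p : ℤ) ∣ eval t (E l)) ∪
          ((Pool.Agent.Q170.ZP.Count.box r H).filter fun t => eval t (D l) = 0) :
            Finset (Fin r → ℤ)) : Set (Fin r → ℤ)) := by
      rintro t ⟨ht, hbad⟩
      by_contra hcon
      refine hbad (hQ t fun l => ?_)
      rw [Finset.mem_coe, Finset.mem_biUnion] at hcon
      push Not at hcon
      have h2 := hcon l (Finset.mem_univ l)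
      rw [Finset.mem_union, Finset.mem_filter, Finset.mem_filter, not_or] at h2
      have hbox' := Pool.Agent.Q170.ZP.Count.mem_box.2 ht
      refine ⟨fun h3 => h2.2 ⟨hbox', h3⟩, ?_⟩
      by_contra h3
      refine h2.1 ⟨hbox', fun p hp hQp hpD => ?_⟩
      by_contra hpE
      exact h3 ⟨p, hp, hQp, hpD, hpE⟩
    have h2 := (Set.ncard_le_ncard h1 (Finset.finite_toSet _)).trans
      ((Set.ncard_coe_finset _).le.trans Finset.card_biUnion_le)
    have hH1 : (1 : ℝ) ≤ H := by exact_mod_cast hH
    have h3 : ∀ l, ((((Pool.Agent.Q170.ZP.Count.box r H).filter fun t =>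
        ¬ ∃ p : ℕ, p.Prime ∧ Q < p ∧ (p : ℤ) ∣ eval t (D l) ∧ ¬ (p : ℤ) ∣ eval t (E l)) ∪
        ((Pool.Agent.Q170.ZP.Count.box r H).filter fun t => eval t (D l) = 0)).card : ℝ) ≤
        (C l + (D l).totalDegree * 3 ^ (r - 1)) * (H : ℝ) ^ ((r : ℝ) - 1 + ε) := by
      intro l
      have hD0 : D l ≠ 0 := by
        intro h0
        have h4 := (hDE l).1
        rw [h0, totalDegree_zero] at h4
        exact lt_irrefl _ h4
      have h4 := Pool.Agent.Q170.ZP.Count.card_zero (D l) hD0 hr H
      have h5 : ((((Pool.Agent.Q170.ZP.Count.box r H).filter fun t => eval t (D l) = 0).card :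
          ℕ) : ℝ) ≤ ((D l).totalDegree * 3 ^ (r - 1)) * (H : ℝ) ^ ((r : ℝ) - 1 + ε) := by
        calc ((((Pool.Agent.Q170.ZP.Count.box r H).filter fun t => eval t (D l) = 0).card :
              ℕ) : ℝ) ≤ (((D l).totalDegree * (2 * H + 1) ^ (r - 1) : ℕ) : ℝ) := by
              exact_mod_cast h4
          _ = (D l).totalDegree * (2 * (H : ℝ) + 1) ^ (r - 1) := by push_cast; rfl
          _ ≤ (D l).totalDegree * (3 * (H : ℝ)) ^ (r - 1) := by
              refine mul_le_mul_of_nonneg_left ?_ (by positivity)
              exact pow_le_pow_left₀ (by positivity) (by linarith) _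
          _ = (D l).totalDegree * 3 ^ (r - 1) * (H : ℝ) ^ (r - 1) := by rw [mul_pow]; ring
          _ ≤ (D l).totalDegree * 3 ^ (r - 1) * (H : ℝ) ^ ((r : ℝ) - 1 + ε) := by
              refine mul_le_mul_of_nonneg_left ?_ (by positivity)
              rw [← Real.rpow_natCast]
              refine Real.rpow_le_rpow_of_exponent_le hH1 ?_
              rw [Nat.cast_sub hr, Nat.cast_one]
              linarith
      have h6 := hcount l H hH
      calc _ ≤ ((((Pool.Agent.Q170.ZP.Count.box r H).filter fun t =>
            ¬ ∃ p : ℕ, p.Prime ∧ Q < p ∧ (p : ℤ) ∣ eval t (D l) ∧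
              ¬ (p : ℤ) ∣ eval t (E l)).card : ℕ) : ℝ) +
            ((((Pool.Agent.Q170.ZP.Count.box r H).filter fun t => eval t (D l) = 0).card : ℕ) :
              ℝ) := by exact_mod_cast Finset.card_union_le _ _
        _ ≤ _ := by
          rw [add_mul]
          exact add_le_add h6 h5
    calc (({t : Fin r → ℤ | (∀ j, |t j| ≤ H) ∧
          ¬ NoAtypical (consts Γ) K m
            (Pool.Agent.Q170.BX.given (evalMany K fun j => (t j : ℂ)) m R G)}.ncard : ℕ) : ℝ)
        ≤ ((∑ l, (((Pool.Agent.Q170.ZP.Count.box r H).filter fun t =>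
          ¬ ∃ p : ℕ, p.Prime ∧ Q < p ∧ (p : ℤ) ∣ eval t (D l) ∧ ¬ (p : ℤ) ∣ eval t (E l)) ∪
          ((Pool.Agent.Q170.ZP.Count.box r H).filter fun t => eval t (D l) = 0)).card : ℕ) :
            ℝ) := by exact_mod_cast h2
      _ = ∑ l, ((((Pool.Agent.Q170.ZP.Count.box r H).filter fun t =>
          ¬ ∃ p : ℕ, p.Prime ∧ Q < p ∧ (p : ℤ) ∣ eval t (D l) ∧ ¬ (p : ℤ) ∣ eval t (E l)) ∪
          ((Pool.Agent.Q170.ZP.Count.box r H).filter fun t => eval t (D l) = 0)).card : ℝ) := by
            push_cast; rfl
      _ ≤ ∑ l, (C l + (D l).totalDegree * 3 ^ (r - 1)) * (H : ℝ) ^ ((r : ℝ) - 1 + ε) :=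
          Finset.sum_le_sum fun l _ => h3 l
      _ = (∑ l, (C l + (D l).totalDegree * 3 ^ (r - 1))) * (H : ℝ) ^ ((r : ℝ) - 1 + ε) := by
          rw [Finset.sum_mul]

end Pool.Agent.Results.MP_130685_nt.BoxDegenerations
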