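import Pool.Agent.Q170.ZP.Crit
import Pool.Agent.Q170.ZP.NF
import Pool.Agent.Y152.RP.Main

/-!
# MP_130685_nt: Zilber-Pink for one-parameter families in `Y(1)^n`: the number of degenerate members
which is needed is `m + 2`, `m` the dimension of the members, for every `n`

The Shimura variety `Y(1)^n` is identified with `ℂ^n` by the elliptic modular function
`jj = j = E₄³ / Δ`.

**Families.** Let `K ⊂ ℂ` be a countable field. As in the starting files `LocalCriterion` and
`AlgebraicParameters` we consider families `X_t` of subsets of `Y(1)^n` with one parameter `t`, given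
by
* a family `B_t ⊆ P^N` of projective algebraic sets, defined by forms `G k` with coefficients in
  `K[t]`,
* quotients `f_i = A_i / B_i` of forms of the same degree `d_i` with coefficients in `K[t]`,
* functions `s_i` integral over `K[j]`, `R_i (s_i, j) = 0` with `R_i` monic in the first variable
  (level one: `R_i = S - J`, `s_i = j`; in general modular functions of any level without poles
  in the upper half plane), of degree at most `T` in both variables, and polynomials `c_i ∈ K[t]`:
`X_t = {x | ∃ y ∈ B_t, ∃ s, ∀ i, R_i (s_i, x_i) = 0, c_i (t) s_i = A_i (y) / B_i (y)}`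
(`scaledImage`), the image of a family of subvarieties of a product of modular curves of any levels.

The family degenerates at the values `t = α_1, …, α_M` of the parameter in the following sense:
* no point of `B_{α_l}` lies on `m + 1` of the divisors of the `f_i` (at `t = α_l`), and
* the `c_i` have zeros at `α_l`, of orders `e_{l i} > 0`, and for any `m + 2` of the indices `l` these
  orders are multiplicatively independent modulo squares: no product of distinct `e_{l i}` times a
  positive integer without prime factors larger than `T` is a square (`IndExp`; this is so if the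
  `e_{l i}` are distinct prime numbers larger than `T`).

**Theorem.** `NoAtypical` for `X_t` says: `X_t` has no atypical intersection with special
subvarieties `Z` of `Y(1)^n`, every irreducible closed subset of `X_t ∩ Z` has dimension at most
`dim Z + m - n`, and the same bound holds for the transcendence degrees of the points of `X_t ∩ Z`
over `K`; in particular `X_t ∩ Z` is empty if `Z` has codimension larger than `m`. The constant
coordinates of `Z` can be special points or integral over the ring generated by any given finite
subset `Γ` of `K`.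
1. (Independent exponents.) Distinct primes larger than `T` are independent.
2. (Local criterion.) Let `Λ` be any ring with an embedding into `ℂ`, with countable fraction field,
   and `X` the image of a projective algebraic set over `Λ` as above, with `c_i ∈ Λ`. If there are
   `m + 2` good places (homomorphisms from `Λ` to algebraically closed fields of any characteristic
   for which the reductions of the divisors are in general position and the `c_i` have exact orders
   `e_{l i}`, independent as above) then `NoAtypical` holds for `X`.
3. If `M = m + 2`, `NoAtypical` holds for all members with transcendental parameter (here the `α_l`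
   are in `K`).
4. Let the `α_l` be distinct rational numbers. If `M ≥ m + 2 + 2 d`, `NoAtypical` holds for all but
   finitely many members with algebraic parameter of degree at most `d`.
5. Let the `α_l` be distinct rational numbers. If `M ≥ m + 4`, then for every number field `F ⊂ ℂ`,
   of any degree, `NoAtypical` holds for all but finitely many members with parameter in `F`.
6. Let the `α_l` be nonzero rational numbers with distinct absolute values. If `M ≥ m + 4`,
   `NoAtypical` holds for all but finitely many of the members with radical parameter `t`, that is,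
   `t ^ N ∈ ℚ` for some `N > 0`, of any degree.
7. Let the `α_l` be rational, `|α_l| ≠ 0, 1`. If `M ≥ m + 2`, `NoAtypical` holds for all but finitely
   many of the members whose parameter is a root of unity.

In the starting files the number of the degenerate members in 2., 3., 4., 6. and 7. is
`n (n - 1) / 2 + 1` instead of `m + 2` (for `m = 1`, and for the emptiness of the intersections with
special subvarieties of codimension at least two only, it is `4`), under a weaker condition on the
exponents; 5. is there only with `2 [F : ℚ]` instead of `2`. So the number of degenerations needed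
grows with the dimension of the members only, and not with the dimension of the Shimura variety; for
curves it is three.

**Proof.** If `x` is a point of `X_t ∩ Z` and `t` is near to `α_l` at a place, then all but at most
`m` of the coordinates have poles there, of order `e_{l i}` up to a common factor and a factor
composed of primes at most `T`. If `x_i` and `x_j` are in the same class of `Z`, `x_i = j (g_i z)`,
`x_j = j (g_j z)`, this implies that `det g_i det g_j e_{l i} e_{l j}` is a square up to such a
factor. Suppose that `dim Z + m < n`. The relations at the place `l` are the edges of a forest with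
at least `n - m - dim Z ≥ 1` edges on the coordinates, and all coordinates in the classes of `Z` carry
a forest with at most `n - dim Z` edges (more precisely, of the coordinates in these classes).
`m + 2` times the first number is larger than the second; so by linear algebra over the field with
two elements (`Pool.Agent.Q170.ZP.exists_even`) there is a nonempty set of pairs `(l, i)` which meets
every place and class, and every coordinate, in an even number of elements; the determinants cancel
from the product of the `e_{l i}` over this set, which is therefore a square up to small factors, a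
contradiction. For 5. the `S`-unit theorem in number fields is used, in the form proved by the team of
the starting files (`Pool.Agent.Y474.RP.FinA`, `Pool.Agent.Y475.RP.Unit`).
-/

set_option autoImplicit false

namespace Pool.Agent.Results.MP_130685_nt.DegenerationsFromDimension

open MvPolynomial
open Pool.Agent.Q170.ZP (IndExp GoodPlace imagef)
open Pool.Agent.Y152.RP.Fam (SpecialVariety NoAtypical InGeneralPosition scaledImage evalAt)

/-- `t` is algebraic over the rational numbers, of degree at most `d`. -/
def DegreeAtMost (d : ℕ) (t : ℂ) : Prop :=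
  ∃ F : Polynomial ℤ, F ≠ 0 ∧ F.natDegree ≤ d ∧ Polynomial.aeval t F = 0

/-- Some power of `t` with positive exponent is a rational number. -/
def IsRadical (t : ℂ) : Prop := ∃ N : ℕ, 0 < N ∧ ∃ q : ℚ, t ^ N = (q : ℂ)

/-- `t` is a root of unity. -/
def IsRootOfUnity (t : ℂ) : Prop := ∃ N : ℕ, 0 < N ∧ t ^ N = 1

/-- The local criterion with `m + 2` good places, and families with `m + 2` (`m + 2 + 2 d`, `m + 4`)
degenerate members. -/
theorem result :
    (∀ (L n T : ℕ) (e : Fin L → Fin n → ℕ), (∀ l i, (e l i).Prime) → (∀ l i, T < e l i) →
      (Function.Injective fun x : Fin L × Fin n => e x.1 x.2) → IndExp T e) ∧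
    (∀ (Λ : Type) [CommRing Λ] (f : Λ →+* ℂ), Function.Injective f →
      ∀ (K : Subfield ℂ) [Countable K], (∀ a, f a ∈ K) →
      ∀ (κ : Type) (N n m T : ℕ) (G : κ → MvPolynomial (Fin (N + 1)) Λ),
      (∀ k, ∃ e, (G k).IsHomogeneous e) →
      ∀ (A B : Fin n → MvPolynomial (Fin (N + 1)) Λ) (d : Fin n → ℕ),
      (∀ i, (A i).IsHomogeneous (d i)) → (∀ i, (B i).IsHomogeneous (d i)) →
      ∀ R : Fin n → Polynomial (Polynomial Λ), (∀ i, (R i).Monic) →
      (∀ i u w, ((R i).coeff u).coeff w ≠ 0 → u ≤ T ∧ w ≤ T) →
      ∀ (c : Fin n → Λ) (e : Fin (m + 2) → Fin n → ℕ), IndExp T e →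
      (∀ l, Nonempty (GoodPlace m G A B R c (e l))) →
      NoAtypical f K m (imagef f G A B R c)) ∧
    (∀ (K₀ : Subfield ℂ) (κ : Type) (N n m T : ℕ)
      (G : κ → MvPolynomial (Fin (N + 1)) (Polynomial K₀)),
      (∀ k, ∃ e, (G k).IsHomogeneous e) →
      ∀ (A B : Fin n → MvPolynomial (Fin (N + 1)) (Polynomial K₀)) (d : Fin n → ℕ),
      (∀ i, (A i).IsHomogeneous (d i)) → (∀ i, (B i).IsHomogeneous (d i)) →
      ∀ R : Fin n → Polynomial (Polynomial K₀), (∀ i, (R i).Monic) →
      (∀ i u w, ((R i).coeff u).coeff w ≠ 0 → u ≤ T ∧ w ≤ T) →
      ∀ (c : Fin n → Polynomial K₀) (α : Fin (m + 2) → K₀),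
      IndExp T (fun l i => (c i).rootMultiplicity (α l)) →
      (∀ l, InGeneralPosition ((α l : K₀) : ℂ) m G A B) →
      ∀ τ : ℂ, Transcendental K₀ τ → ∀ (K : Subfield ℂ) [Countable K], K₀ ≤ K → τ ∈ K →
      NoAtypical (evalAt K₀ τ) K m (scaledImage τ G A B R c)) ∧
    (∀ (K : Subfield ℂ) [Countable K] (κ : Type) [Finite κ] (N n m M T : ℕ)
      (G : κ → MvPolynomial (Fin (N + 1)) (Polynomial K)),
      (∀ k, ∃ e, (G k).IsHomogeneous e) →
      ∀ (A B : Fin n → MvPolynomial (Fin (N + 1)) (Polynomial K)) (δ : Fin n → ℕ),
      (∀ i, (A i).IsHomogeneous (δ i)) → (∀ i, (B i).IsHomogeneous (δ i)) →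
      ∀ R : Fin n → Polynomial (Polynomial K), (∀ i, (R i).Monic) →
      (∀ i u w, ((R i).coeff u).coeff w ≠ 0 → u ≤ T ∧ w ≤ T) →
      ∀ (c : Fin n → Polynomial K) (α : Fin M → ℚ),
      (∀ f : Fin (m + 2) → Fin M, Function.Injective f →
        IndExp T fun l i => (c i).rootMultiplicity ((α (f l) : ℚ) : K)) →
      (∀ l, InGeneralPosition ((α l : ℚ) : ℂ) m G A B) →
      ∀ Γ : Finset ℂ, (∀ γ ∈ Γ, γ ∈ K) →
      (Function.Injective α → ∀ d : ℕ, m + 2 + 2 * d ≤ M → {t : ℂ | DegreeAtMost d t ∧
        ¬ NoAtypical (algebraMap (Algebra.adjoin ℤ (Γ : Set ℂ)) ℂ) K m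
          (scaledImage t G A B R c)}.Finite) ∧
      (Function.Injective α → m + 4 ≤ M → ∀ F : IntermediateField ℚ ℂ, FiniteDimensional ℚ F →
        {t : ℂ | t ∈ F ∧ ¬ NoAtypical (algebraMap (Algebra.adjoin ℤ (Γ : Set ℂ)) ℂ) K m
          (scaledImage t G A B R c)}.Finite) ∧
      ((∀ l, α l ≠ 0) → (∀ l l', l ≠ l' → |α l| ≠ |α l'|) → m + 4 ≤ M →
        {t : ℂ | IsRadical t ∧ ¬ NoAtypical (algebraMap (Algebra.adjoin ℤ (Γ : Set ℂ)) ℂ) K m
          (scaledImage t G A B R c)}.Finite) ∧
      ((∀ l, α l ≠ 0 ∧ |α l| ≠ 1) → m + 2 ≤ M →
        {t : ℂ | IsRootOfUnity t ∧ ¬ NoAtypical (algebraMap (Algebra.adjoin ℤ (Γ : Set ℂ)) ℂ) K m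
          (scaledImage t G A B R c)}.Finite)) := by
  refine ⟨?_, ?_, ?_, ?_⟩
  · intro L n T e hp hT hinj
    exact Pool.Agent.Q170.ZP.indExp_of_primes e hp hT hinj
  · intro Λ _ f hf K _ hK κ N n m T G hG A B d hA hB R hR hT c e he P
    exact Pool.Agent.Q170.ZP.localW f hf K hK le_rfl G hG A B d hA hB R hR hT c e he
      fun l => (P l).some
  · intro K₀ κ N n m T G hG A B d hA hB R hR hT c α he hpos τ hτ K _ hK₀ hτK
    exact Pool.Agent.Q170.ZP.transcW K₀ κ N n m T (m + 2) le_rfl G hG A B d hA hB R hR hT c α he
      hpos τ hτ K hK₀ hτK
  · intro K _ κ _ N n m M T G hG A B δ hA hB R hR hT c α hind hpos Γ hΓ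
    refine ⟨fun hinj d hM => ?_, fun hinj hM F hF => ?_, fun h0 hdist hM => ?_, fun hne hM => ?_⟩
    · refine Pool.Agent.Q170.ZP.familyW K κ N n m M T (m + 2) le_rfl G hG A B δ hA hB R hR hT c α
        hind hpos Γ hΓ {t | DegreeAtMost d t} ?_ (by omega)
        fun D => Pool.Agent.Y152.BD.finite_badD D d (by omega) α hinj
      rintro t ⟨F, hF0, -, hFt⟩
      exact ⟨F, hF0, hFt⟩
    · refine Pool.Agent.Q170.ZP.familyW K κ N n m M T (m + 2) le_rfl G hG A B δ hA hB R hR hT c α
        hind hpos Γ hΓ {t | t ∈ F} ?_ (by omega)
        fun D => Pool.Agent.Q170.ZP.NF.nfMain F (by omega) α hinj D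
      intro t ht
      have h2 : IsIntegral ℚ ((⟨t, ht⟩ : F) : ℂ) :=
        (Algebra.IsIntegral.isIntegral (R := ℚ) (⟨t, ht⟩ : F)).map F.val
      exact (IsFractionRing.isAlgebraic_iff ℤ ℚ ℂ).2 h2.isAlgebraic
    · exact Pool.Agent.Q170.ZP.familyW K κ N n m M T (m + 2) le_rfl G hG A B δ hA hB R hR hT c α
        hind hpos Γ hΓ {t | IsRadical t} (fun t ht => Pool.Agent.Y152.RP.alg_of_rad ht) (by omega)
        fun D => Pool.Agent.Y152.RP.arithMain D _ M (by omega) α h0 hdist
    · refine Pool.Agent.Q170.ZP.familyW K κ N n m M T (m + 2) le_rfl G hG A B δ hA hB R hR hT c α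
        hind hpos Γ hΓ {t | IsRootOfUnity t} ?_ hM
        fun D => Pool.Agent.Y152.RP.unityMain hM α (fun l => (hne l).1) (fun l => (hne l).2) D
      rintro t ⟨N, hN, ht⟩
      exact Pool.Agent.Y152.RP.alg_of_rad ⟨N, hN, 1, by rw [ht, Rat.cast_one]⟩

end Pool.Agent.Results.MP_130685_nt.DegenerationsFromDimension
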