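import Mathlib
import Pool.Agent.Q8.ZA.Mod

/-!
MP_130685_nt, Q1: points of large relative degree over projective space on subvarieties of `Y(1)^n`
whose coordinates have different degrees.
-/

set_option autoImplicit false

namespace Pool.Agent.Results.MP_130685_nt.LargeRelativeDegree

open Pool.Agent.Q8.KS Pool.Agent.Q8.ZA

/-- Let `U` be a subvariety of `Y(1)^n` over a number field `K` with absolute Galois group `G`, let
`W` be its closure in `(ℙ¹)^n`, `m = dim W`, and let `H₀` be an ample class on `W`. Suppose that the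
degrees `D_i ⋅ H₀^(m-1)` of the coordinates `x_i : W → ℙ¹`, `D_i = x_i^* O(1)`, are positive and
different from each other. There is `κ > 0` such that for all finite morphisms `φ : W → ℙ^m` such
that `φ^* O(1)` is numerically a positive multiple of `H₀` and all `e`, there are only finitely many
points `w` of `U` with `[K(w) : K(φ(w))] > (1 - κ) deg φ` and `[K(φ(w)) : K] ≤ e` which lie in a
special subvariety of `Y(1)^n` other than `Y(1)^n`. -/
theorem result {G : Type} [Group G] (W : Variety G) (Y : ModularCurve G) (n : ℕ)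
    (M : ModularMap W Y n) (H₀ : W.Pic) (hH₀ : W.IsAmple H₀)
    (hpos : ∀ i, 0 < W.deg (W.cls H₀) (W.cls (M.D i)))
    (hne : ∀ i k, i ≠ k →
      W.deg (W.cls H₀) (W.cls (M.D i)) ≠ W.deg (W.cls H₀) (W.cls (M.D k))) :
    ∃ κ : ℝ, 0 < κ ∧ ∀ φ : Cover W, (∃ t : ℝ, 0 < t ∧ W.cls φ.H = t • W.cls H₀) →
      ∀ e : ℕ, {w : W.Pt | (w ∈ M.U ∧ (1 - κ) * φ.N < φ.relDeg w ∧
        (MulAction.orbit G (φ.φ w)).ncard ≤ e) ∧ M.InProperSpecial w}.Finite :=
  modular M hH₀ hpos hne

end Pool.Agent.Results.MP_130685_nt.LargeRelativeDegree
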