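import Pool.Agent.Q170.PD.Trans
import Pool.Agent.Q170.ZP.MultiCount

/-!
# MP_130685_nt: Zilber-Pink in `Y(1)^n` for partial degenerations

The Shimura variety `Y(1)^n` is identified with `ℂ^n` by the elliptic modular function
`jj = j = E₄³ / Δ`. In all earlier results of this type *every* coordinate has a pole at each of the
degenerate members (or at each of the good places). Here only some of the coordinates degenerate at
each of them. At a place where the coordinates in a set `S` tend to the cusp and the others have good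
reduction no coordinate in `S` is isogenous to one outside of `S`, so there is no loss, but the
combinatorics are different.

**Sets.** `X = {x | c_i x_i = A_i (y) / B_i (y), y ∈ B}` (`image`), where `B` is a projective algebraic set
defined by the forms `G k`, and `A_i`, `B_i` are forms of the same degree. Let `e_i ≥ 0` be the order of
`c_i` at a place, or at a degenerate member. `GeneralPosition` says: no point of `B` lies on
`m + 1` of the divisors `B_i = 0`, and `A_i B_i = 0` if `e_i > 0`. So the coordinates with `e_i > 0` have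
poles of order `e_i`, and those with `e_i = 0` are integral, with at most `m` exceptions. In particular
`X` has dimension at most `m`.

**Conditions on the orders** `e_{l i}`, `l = 1, …, L`, `i = 1, …, n`:
* `Independent`: no product of distinct positive `e_{l i}` is a square (for instance distinct primes).
* `Spread m`: for some number `κ > L m / (m + 1)` every coordinate degenerates at `κ` or more of
  the places, and `∑ l, min (#{i ∈ c | 0 < e_{l i}}, #c - 1) ≥ (κ + 1) (#c - 1)` for every set `c` of
  at least two coordinates.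
By part 1 this is true if each coordinate is *not* degenerate at most `τ` times, where
`(m + 1) (τ + 1) < L`. The number of degenerations does not depend on `n`. For `τ = 0`, all
coordinates degenerate everywhere, this is the condition `m + 2 ≤ L` of `MP_d83ecd_ag.DegenerationsFromDimension` and
`MultiParameterFamilies`. For curves (`m = 1`) and `L = 2 τ + 3` degenerations almost half of them can be
missing for every coordinate.

**Theorem.** Under these conditions `X` has no atypical intersection with special subvarieties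
(`NoAtypical`): every irreducible closed subset of `X ∩ Z`, `Z` a special subvariety of `Y(1)^n`, has
dimension at most `dim Z + m - n`, and the same bound holds for the transcendence degrees of the
points of `X ∩ Z`.
2. *Local criterion*: for data over any ring `Λ ⊂ ℂ` and `L` good places.
3. *One-parameter families* `X_t` over a countable field `K` (coefficients in `K[t]`), partially
   degenerate at the elements of finite sets `D_1, …, D_M` of numbers algebraic over `K`, where the
   orders of the `c_i` at elements of any `L` of the sets are independent and spread. (a) If at least `L`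
   of the sets are not empty, the conclusion holds for all `t` which are transcendental over `K`.
   (b) If the union of any `M - L + 1` of the sets has at least three elements (for instance
   `M = L + 2`), it holds for all but finitely many `t` in any field generated by finitely many numbers
   algebraic over `K`; (c) two elements are sufficient for all but finitely many elements of a
   finitely generated ring of such numbers.
4. *Families with `r` parameters*, partially degenerate along the hypersurfaces `D_l = 0`, outside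
   `E_l = 0`, `D_l, E_l ∈ ℤ[t_1, …, t_r]`: `c_i = D_l ^ e_{l i} b_{l i}`, and for `t ∈ ℂ^r` with
   `D_l (t) = 0`, `E_l (t) ≠ 0` the divisors are in general position and `b_{l i} (t) ≠ 0`. The
   conclusion holds for all `t ∈ ℤ^r` such that every `D_l (t)` has a prime factor `p > Q₀` which does not
   divide `E_l (t)`. If the `D_l` are not constant and `D_l`, `E_l` have no common factor, this is true for
   100 per cent of the `t`: the number of exceptions with `|t_j| ≤ H` is at most `C H ^ (r - 1 + ε)`.

*Example.* Let `X` be the image of `B` and `f_i = A_i / B_i` over `K`, of dimension `m`, and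
`T = {(∏ l, t_l ^ e_{l i})_i}` the image of `G_m^L` in `G_m^n`. If the divisors of the `f_i` are in
general position, part 4 with `D_l = t_l`, `E_l = ∏ l' ≠ l, t_l'` shows that Zilber-Pink is true for
`t^{-1} X`, for 100 per cent of the `t ∈ ℤ^L`; each `t_l` may act on some of the coordinates only.

The constant coordinates of `Z` can be special points, integral over `Λ` in part 2, and integral over
the ring generated by a finite set `Γ` of numbers algebraic over `K` (in `K` in part 4).

**Proof of the combinatorial part.** Let `c` be a class of isogenous coordinates. At the place `l`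
either all good coordinates in `c` have poles, then the coordinates in `c` with `e_{l i} = 0` are bad,
or all `i ∈ c` with `e_{l i} > 0` are bad. As there are at most `m` bad coordinates, there are more
independent pairs (place, two isogenous coordinates with poles) than the sum of the `#c - 1`, by
`Spread`. So there is a linear relation over the field of two elements, and its
product is a square (`Pool.Agent.Q170.PD.exists_evenP`, `no_relP`).
-/

set_option autoImplicit false

namespace Pool.Agent.Results.MP_130685_nt.PartialDegenerations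

open H294ZP UpperHalfPlane MvPolynomial Pool.Agent.W282.ZP
open Pool.Agent.Y152.RP.Fam (SpecialVariety SpecialVariety.locus NoAtypical)

/-- The set of the points `x` with `c_i x_i = A_i (y) / B_i (y)` for a point `y` of the projective
algebraic set defined by the forms `G k`. The homomorphism `f` is the specialization of the
coefficients. -/
def image {R : Type} [CommRing R] (f : R →+* ℂ) {N n : ℕ} {κ : Type}
    (G : κ → MvPolynomial (Fin (N + 1)) R) (A B : Fin n → MvPolynomial (Fin (N + 1)) R)
    (c : Fin n → R) : Set (Fin n → ℂ) :=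
  {x | ∃ y : Fin (N + 1) → ℂ, y ≠ 0 ∧ (∀ k, eval₂ f y (G k) = 0) ∧
    ∀ i, f (c i) * eval₂ f y (B i) * x i = eval₂ f y (A i)}

/-- The divisors are in general position over the field `F`: no point of the projective algebraic set
lies on `m + 1` of the divisors `B i = 0`, and `A i * B i = 0` if the coordinate `i` is degenerate
(`0 < e i`). -/
def GeneralPosition {R F : Type} [CommRing R] [Field F] (f : R →+* F) {N n : ℕ} {κ : Type} (m : ℕ)
    (G : κ → MvPolynomial (Fin (N + 1)) R) (A B : Fin n → MvPolynomial (Fin (N + 1)) R)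
    (e : Fin n → ℕ) : Prop :=
  ∀ I : Finset (Fin n), I.card = m + 1 → ∀ y : Fin (N + 1) → F, y ≠ 0 →
    (∀ k, eval₂ f y (G k) = 0) →
    ∃ i ∈ I, eval₂ f y (B i) ≠ 0 ∧ (0 < e i → eval₂ f y (A i) ≠ 0)

/-- No product of distinct positive exponents is a square. -/
def Independent {L n : ℕ} (e : Fin L → Fin n → ℕ) : Prop :=
  ∀ P : Finset (Fin L × Fin n), P.Nonempty → (∀ x ∈ P, 0 < e x.1 x.2) →
    ¬ IsSquare (∏ x ∈ P, e x.1 x.2)

/-- The degenerations are sufficiently spread over the coordinates. -/
def Spread {L n : ℕ} (m : ℕ) (e : Fin L → Fin n → ℕ) : Prop :=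
  ∃ κ, L * m < κ * (m + 1) ∧ (∀ i, κ ≤ (Finset.univ.filter fun l => 0 < e l i).card) ∧
    ∀ c : Finset (Fin n), 2 ≤ c.card → (κ + 1) * (c.card - 1) ≤
      ∑ l, min (c.filter fun i => 0 < e l i).card (c.card - 1)

/-- A good place: a homomorphism `red` to an algebraically closed field over which the divisors
are in general position, such that `c i` has the exact order `e i` at the place,
`a (c i) = b ϖ ^ (e i)` with `red ϖ = 0` and `a`, `b` invertible at the place. -/
structure GoodPlace {Λ : Type} [CommRing Λ] {N n : ℕ} {κ : Type} (m : ℕ)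
    (G : κ → MvPolynomial (Fin (N + 1)) Λ) (A B : Fin n → MvPolynomial (Fin (N + 1)) Λ)
    (c : Fin n → Λ) (e : Fin n → ℕ) where
  F : Type
  [field : Field F]
  [closed : IsAlgClosed F]
  red : Λ →+* F
  general : GeneralPosition red m G A B e
  ϖ : Λ
  red_ϖ : red ϖ = 0
  exact : ∀ i, ∃ a b : Λ, red a ≠ 0 ∧ red b ≠ 0 ∧ a * c i = b * ϖ ^ e i

/-- The order of the zero at `α` of a polynomial in the parameter. -/
noncomputable def order {K : Subfield ℂ} (c : Polynomial K) (α : ℂ) : ℕ :=
  (c.map (algebraMap K ℂ)).rootMultiplicity α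

/-- The value at `t` of a polynomial in one parameter. -/
noncomputable def evalOne (K : Subfield ℂ) (t : ℂ) : Polynomial K →+* ℂ :=
  (Polynomial.aeval t : Polynomial K →ₐ[K] ℂ).toRingHom

/-- The value at `t` of a polynomial in several parameters. -/
noncomputable def evalMany (K : Subfield ℂ) {r : ℕ} (t : Fin r → ℂ) :
    MvPolynomial (Fin r) K →+* ℂ :=
  (aeval t : MvPolynomial (Fin r) K →ₐ[K] ℂ).toRingHom

/-- The ring of the allowed constants -/
noncomputable abbrev consts (Γ : Finset ℂ) : Algebra.adjoin ℤ (Γ : Set ℂ) →+* ℂ :=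
  algebraMap (Algebra.adjoin ℤ (Γ : Set ℂ)) ℂ

/-- The forms `G k` are homogeneous, and `A i`, `B i` are homogeneous of the same degree. -/
def Forms {R : Type} [CommRing R] {N n : ℕ} {κ : Type}
    (G : κ → MvPolynomial (Fin (N + 1)) R) (A B : Fin n → MvPolynomial (Fin (N + 1)) R) : Prop :=
  (∀ k, ∃ d, (G k).IsHomogeneous d) ∧ ∀ i, ∃ d, (A i).IsHomogeneous d ∧ (B i).IsHomogeneous d

theorem indPos {L n : ℕ} {e : Fin L → Fin n → ℕ} (h : Independent e) :
    Pool.Agent.Q170.PD.IndPos 1 e := by
  intro P hP hpos hsq
  obtain ⟨q, hq, hsq⟩ := hsq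
  have h1 : q = 1 := by
    by_contra hne
    have hp := Nat.minFac_prime hne
    exact absurd (hq.2 _ hp (Nat.minFac_dvd q)) (not_le.2 hp.one_lt)
  rw [h1, mul_one] at hsq
  exact h P hP hpos hsq

/-- **Zilber-Pink in `Y(1)^n` for partial degenerations**: the condition on the orders, the local
criterion, one-parameter families (transcendental parameters, finitely generated fields and
rings), and families with several parameters. -/
theorem result :
    (∀ (L n m τ : ℕ) (e : Fin L → Fin n → ℕ), (m + 1) * (τ + 1) < L →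
      (∀ i, (Finset.univ.filter fun l => e l i = 0).card ≤ τ) → Spread m e) ∧
    (∀ (Λ : Type) [CommRing Λ] (f : Λ →+* ℂ), Function.Injective f →
      ∀ (K : Subfield ℂ) [Countable K], (∀ a, f a ∈ K) → ∀ (κ : Type) (N n m L : ℕ)
      (G : κ → MvPolynomial (Fin (N + 1)) Λ) (A B : Fin n → MvPolynomial (Fin (N + 1)) Λ),
      Forms G A B → ∀ (c : Fin n → Λ) (e : Fin L → Fin n → ℕ), Independent e → Spread m e →
      (∀ l, Nonempty (GoodPlace m G A B c (e l))) → NoAtypical f K m (image f G A B c)) ∧
    (∀ (K : Subfield ℂ) [Countable K] (κ : Type) [Finite κ] (N n m L : ℕ), 0 < L →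
      ∀ (G : κ → MvPolynomial (Fin (N + 1)) (Polynomial K))
      (A B : Fin n → MvPolynomial (Fin (N + 1)) (Polynomial K)), Forms G A B →
      ∀ c : Fin n → Polynomial K, (∀ i, c i ≠ 0) → ∀ (M : ℕ) (D : Fin M → Finset ℂ),
      (∀ l, ∀ α ∈ D l, IsAlgebraic K α) →
      (∀ l, ∀ α ∈ D l, GeneralPosition (evalOne K α) m G A B fun i => order (c i) α) →
      (∀ (f : Fin L → Fin M) (α : Fin L → ℂ), Function.Injective f → (∀ l, α l ∈ D (f l)) →
        Independent (fun l i => order (c i) (α l)) ∧ Spread m fun l i => order (c i) (α l)) →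
      ∀ Γ : Finset ℂ, (∀ γ ∈ Γ, IsAlgebraic K γ) →
      ((∀ I : Finset (Fin M), M + 1 ≤ I.card + L → 1 ≤ (I.biUnion D).card) →
        ∀ t : ℂ, Transcendental K t → ∀ (K' : Subfield ℂ) [Countable K'], K ≤ K' → t ∈ K' →
        NoAtypical (consts Γ) K' m (image (evalOne K t) G A B c)) ∧
      ∀ F : Finset ℂ, (∀ z ∈ F, IsAlgebraic K z) →
      ((∀ I : Finset (Fin M), M + 1 ≤ I.card + L → 3 ≤ (I.biUnion D).card) →
        {t : ℂ | t ∈ Subfield.closure (F : Set ℂ) ∧
          ¬ NoAtypical (consts Γ) K m (image (evalOne K t) G A B c)}.Finite) ∧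
      ((∀ I : Finset (Fin M), M + 1 ≤ I.card + L → 2 ≤ (I.biUnion D).card) →
        {t : ℂ | t ∈ Subring.closure (F : Set ℂ) ∧
          ¬ NoAtypical (consts Γ) K m (image (evalOne K t) G A B c)}.Finite)) ∧
    (∀ (K : Subfield ℂ) [Countable K] (κ : Type) [Finite κ] (r N n m L : ℕ)
      (G : κ → MvPolynomial (Fin (N + 1)) (MvPolynomial (Fin r) K))
      (A B : Fin n → MvPolynomial (Fin (N + 1)) (MvPolynomial (Fin r) K)), Forms G A B →
      ∀ (c : Fin n → MvPolynomial (Fin r) K) (D E : Fin L → MvPolynomial (Fin r) ℤ)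
      (b : Fin L → Fin n → MvPolynomial (Fin r) K) (e : Fin L → Fin n → ℕ), Independent e →
      Spread m e →
      (∀ l i, c i = MvPolynomial.map (Int.castRingHom K) (D l) ^ e l i * b l i) →
      (∀ l (t : Fin r → ℂ), aeval t (D l) = 0 → aeval t (E l) ≠ 0 →
        GeneralPosition (evalMany K t) m G A B (e l) ∧ ∀ i, evalMany K t (b l i) ≠ 0) →
      ∀ Γ : Finset ℂ, (∀ γ ∈ Γ, γ ∈ K) →
      (∃ Q₀ : ℕ, ∀ t : Fin r → ℤ, (∀ l, ∃ p : ℕ, p.Prime ∧ Q₀ < p ∧
        (p : ℤ) ∣ eval t (D l) ∧ ¬ (p : ℤ) ∣ eval t (E l)) →
        NoAtypical (consts Γ) K m (image (evalMany K fun j => (t j : ℂ)) G A B c)) ∧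
      ((∀ l, 0 < (D l).totalDegree ∧ IsRelPrime (D l) (E l)) → ∀ ε : ℝ, 0 < ε →
        ∃ C : ℝ, 0 < C ∧ ∀ H : ℕ, 1 ≤ H →
          (({t : Fin r → ℤ | (∀ j, |t j| ≤ H) ∧
            ¬ NoAtypical (consts Γ) K m
              (image (evalMany K fun j => (t j : ℂ)) G A B c)}.ncard : ℕ) : ℝ) ≤
            C * (H : ℝ) ^ ((r : ℝ) - 1 + ε))) := by
  classical
  refine ⟨fun L n m τ e hL h => Pool.Agent.Q170.PD.spread_of_few e hL h, ?_, ?_, ?_⟩
  · intro Λ _ f hf K _ hK κ N n m L G A B hforms c e he hsp P
    have hdom : IsDomain Λ := hf.isDomain f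
    let _ : Algebra Λ ℂ := f.toAlgebra
    let fK : Λ →+* K := f.codRestrict K hK
    let _ : Algebra Λ K := fK.toAlgebra
    have hst : IsScalarTower Λ K ℂ := IsScalarTower.of_algebraMap_eq fun _ => rfl
    have hfK : Function.Injective (algebraMap Λ K) := fun a b h => hf (congrArg Subtype.val h)
    have P' := fun l => (P l).some
    let inst : ∀ l, Field (P' l).F := fun l => (P' l).field
    choose d hA hB using hforms.2
    refine Pool.Agent.Q170.BX.noAtypical_pt f K _ ?_
    rintro r Z x ⟨⟨y, hy0, hyG, hxy⟩, hxZ⟩ S hS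
    refine Pool.Agent.Q170.PD.criterionP (m := m) G hforms.1 A B d hA hB c
      (fun l => RingHom.ker (P' l).red) (fun l => RingHom.ker_isPrime (P' l).red) e (indPos he) hsp
      ?_ (fun l => (P' l).ϖ) (fun l => (P' l).red_ϖ) (fun l i => (P' l).exact i) Z.cls
      (fun i => (Z.mat i).det.toNat) x
      (fun i => by
        have := Z.det_pos i
        omega) ?_
      (fun i j l hi hj => by
        have h5 := Pool.Agent.Y152.RP.Fam.rel_of_locus Z hxZ i j l hi hj
        rw [Int.toNat_mul (Z.det_pos i).le (Z.det_pos j).le] at h5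
        exact h5) y hy0 hyG hxy S (hS.restrictScalars hfK)
    · intro l F _ φ hφ I hI y' hy' hG'
      have := (P' l).closed
      exact Pool.Agent.Q170.PD.general_transfer (m := m) G A B (e l) (P' l).red (P' l).general F φ
        hφ I hI y' hy' hG'
    · intro i hi
      obtain ⟨z, hz⟩ := hxZ
      rw [(hz i).1 hi]
      rcases Z.allowed i with ⟨τ, hτ, hc⟩ | h
      · rw [hc]
        exact (singular_modulus_integral τ hτ).tower_top
      · exact h
  · intro K _ κ _ N n m L hL G A B hforms c hc M D hD hpos hind Γ hΓ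
    choose d hA hB using hforms.2
    have hind' : ∀ (f : Fin L → Fin M) (α : Fin L → ℂ), Function.Injective f →
        (∀ l, α l ∈ D (f l)) →
        Pool.Agent.Q170.PD.IndPos 1 (fun l i => Pool.Agent.Q170.RG.order (c i) (α l)) ∧
        Pool.Agent.Q170.PD.Spread m (fun l i => Pool.Agent.Q170.RG.order (c i) (α l)) :=
      fun f α hf hα => ⟨indPos (hind f α hf hα).1, (hind f α hf hα).2⟩
    refine ⟨fun hM t ht K' _ hKK' htK' => ?_, fun F hF => ?_⟩
    · obtain ⟨f, α, hf, hα⟩ := Pool.Agent.Q170.PD.exists_choice D hM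
      exact Pool.Agent.Q170.PD.transP K κ N n m L G hforms.1 A B d hA hB c hc α
        (fun l => hD _ _ (hα l)) (hind' f α hf hα).1 (hind' f α hf hα).2
        (fun l => hpos _ _ (hα l)) Γ hΓ t ht K' hKK' htK'
    · exact Pool.Agent.Q170.PD.fgP K κ N n m M L hL G hforms.1 A B d hA hB c hc D hD hind'
        (fun l α hα => hpos l α hα) Γ hΓ F hF
  · intro K _ κ _ r N n m L G A B hforms c D E b e he hsp hc hpos Γ hΓ
    choose d hA hB using hforms.2
    obtain ⟨Q, hQ⟩ := Pool.Agent.Q170.PD.multiP K κ r N n m L G hforms.1 A B d hA hB c D E b e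
      (indPos he) hsp hc (fun l t hD hE => hpos l t hD hE) Γ hΓ
    have hQ' : ∀ t : Fin r → ℤ, (∀ l, ∃ p : ℕ, p.Prime ∧ Q < p ∧
        (p : ℤ) ∣ eval t (D l) ∧ ¬ (p : ℤ) ∣ eval t (E l)) →
        NoAtypical (consts Γ) K m (image (evalMany K fun j => (t j : ℂ)) G A B c) := hQ
    refine ⟨⟨Q, hQ'⟩, fun hDE ε hε => ?_⟩
    choose C hC hcount using fun l =>
      Pool.Agent.Q170.ZP.Count.card_bad (D l) (E l) (hDE l).1 (hDE l).2 Q ε hε
    refine ⟨1 + ∑ l, C l, add_pos_of_pos_of_nonneg one_pos (Finset.sum_nonneg fun l _ => (hC l).le),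
      fun H hH => ?_⟩
    have h1 : {t : Fin r → ℤ | (∀ j, |t j| ≤ H) ∧
        ¬ NoAtypical (consts Γ) K m (image (evalMany K fun j => (t j : ℂ)) G A B c)} ⊆
        ((Finset.univ.biUnion fun l => (Pool.Agent.Q170.ZP.Count.box r H).filter fun t =>
          ¬ ∃ p : ℕ, p.Prime ∧ Q < p ∧ (p : ℤ) ∣ eval t (D l) ∧ ¬ (p : ℤ) ∣ eval t (E l) :
            Finset (Fin r → ℤ)) : Set (Fin r → ℤ)) := by
      rintro t ⟨ht, hbad⟩
      by_contra hcon
      refine hbad (hQ' t fun l => ?_)
      by_contra hl
      refine hcon ?_
      rw [Finset.mem_coe, Finset.mem_biUnion]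
      exact ⟨l, Finset.mem_univ l, Finset.mem_filter.2
        ⟨Pool.Agent.Q170.ZP.Count.mem_box.2 ht, hl⟩⟩
    have h2 := (Set.ncard_le_ncard h1 (Finset.finite_toSet _)).trans
      ((Set.ncard_coe_finset _).le.trans Finset.card_biUnion_le)
    have hHpos : (0 : ℝ) ≤ (H : ℝ) ^ ((r : ℝ) - 1 + ε) := by positivity
    calc ((({t : Fin r → ℤ | (∀ j, |t j| ≤ H) ∧
            ¬ NoAtypical (consts Γ) K m
              (image (evalMany K fun j => (t j : ℂ)) G A B c)}).ncard : ℕ) : ℝ)
        ≤ ((∑ l, ((Pool.Agent.Q170.ZP.Count.box r H).filter fun t =>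
          ¬ ∃ p : ℕ, p.Prime ∧ Q < p ∧ (p : ℤ) ∣ eval t (D l) ∧
            ¬ (p : ℤ) ∣ eval t (E l)).card : ℕ) : ℝ) := by exact_mod_cast h2
      _ = ∑ l, (((Pool.Agent.Q170.ZP.Count.box r H).filter fun t =>
          ¬ ∃ p : ℕ, p.Prime ∧ Q < p ∧ (p : ℤ) ∣ eval t (D l) ∧
            ¬ (p : ℤ) ∣ eval t (E l)).card : ℝ) := by push_cast; rfl
      _ ≤ ∑ l, C l * (H : ℝ) ^ ((r : ℝ) - 1 + ε) := Finset.sum_le_sum fun l _ => hcount l H hH
      _ = (∑ l, C l) * (H : ℝ) ^ ((r : ℝ) - 1 + ε) := by rw [Finset.sum_mul]
      _ ≤ (1 + ∑ l, C l) * (H : ℝ) ^ ((r : ℝ) - 1 + ε) := by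
          refine mul_le_mul_of_nonneg_right ?_ hHpos
          linarith

end Pool.Agent.Results.MP_130685_nt.PartialDegenerations
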